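import Pool.Agent.Q75.BM.Stm

set_option autoImplicit false

namespace Pool.Agent.Q39.BM

open Filter Topology MeasureTheory Set
open Pool.Agent.Q75.BM

theorem test_neg {φ : ℂ → ℝ} (h : Test φ) : Test (-φ) := ⟨h.smooth.neg, h.comp.neg⟩

theorem lap_neg (φ : ℂ → ℝ) : Lap (-φ) = - Lap φ := InnerProductSpace.laplacian_neg

theorem lim_ge (a : ℕ → ℝ) (L m A : ℝ) (ha : Tendsto (fun n : ℕ => a n / n) atTop (𝓝 L))
    (h : ∀ n : ℕ, m * n - A ≤ a n) : m ≤ L := by
  have h1 : Tendsto (fun n : ℕ => m - A / (n : ℝ)) atTop (𝓝 m) := by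
    have := (tendsto_const_nhds (x := m)).sub (tendsto_const_div_atTop_nhds_zero_nat A)
    simpa using this
  refine le_of_tendsto_of_tendsto h1 ha ?_
  filter_upwards [eventually_gt_atTop 0] with n hn
  have hn' : (0 : ℝ) < n := by exact_mod_cast hn
  rw [le_div_iff₀ hn', sub_mul, div_mul_cancel₀ _ hn'.ne']
  exact h n

theorem lim_le (a : ℕ → ℝ) (L m A : ℝ) (ha : Tendsto (fun n : ℕ => a n / n) atTop (𝓝 L))
    (h : ∀ n : ℕ, a n ≤ m * n + A) : L ≤ m := by
  have h1 : Tendsto (fun n : ℕ => m + A / (n : ℝ)) atTop (𝓝 m) := by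
    have := (tendsto_const_nhds (x := m)).add (tendsto_const_div_atTop_nhds_zero_nat A)
    simpa using this
  refine le_of_tendsto_of_tendsto ha h1 ?_
  filter_upwards [eventually_gt_atTop 0] with n hn
  have hn' : (0 : ℝ) < n := by exact_mod_cast hn
  rw [div_le_iff₀ hn', add_mul, div_mul_cancel₀ _ hn'.ne']
  exact h n

theorem t_M1 (hLM : S_LM) (hP2 : S_P2) (hRT : S_RT) (hE1 : S_E1) (hE2 : S_E2) :
    Pool.Agent.Q75.BM.S_M1 := by
  intro ε h0 h3 φ hφ hpos
  obtain ⟨-, hlim⟩ := hLM ε h0 h3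
  have hl := hlim φ hφ
  obtain ⟨C, hC⟩ : ∃ C : ℝ, C = ∫ l, |Lap φ l| := ⟨_, rfl⟩
  obtain ⟨J, hJ⟩ : ∃ J : List Ltr → ℝ, J = fun w => ∫ l, Real.log (hs (wmat w l)) * Lap φ l := ⟨_, rfl⟩
  have hl' : Tendsto (fun n : ℕ => Ew ε n J / n) atTop (𝓝 (∫ l, chi ε l * Lap φ l)) := by
    rw [hJ]; exact hl
  refine ⟨?_, ?_, ?_⟩
  · refine lim_ge (fun n => Ew ε n J) _ 0 (4 * C) hl' ?_
    intro n
    obtain ⟨-, -, hc, hmono⟩ := hE1 ε h0 h3 n
    have hle := hmono (fun _ => -(4 * C)) J (by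
      intro w _
      have := hP2 w φ 0 hφ (fun α β P hP hb => (hRT w α β P hP hb φ hpos).1)
      rw [hJ, hC]
      simp only
      linarith)
    rw [hc] at hle
    simpa using hle
  · intro hseg
    refine lim_ge (fun n => Ew ε n J) _ _ (6 * Real.pi + 4 * C) hl' ?_
    intro n
    obtain ⟨hadd, hmul, hc, hmono⟩ := hE1 ε h0 h3 n
    obtain ⟨-, h2⟩ := hE2 ε h0 h3
    obtain ⟨hna, hnm⟩ := h2 n
    have hle := hmono (fun w => 2 * Real.pi * (na w : ℝ) + ((-(8 * Real.pi)) * (nm w : ℝ)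
        + (-(6 * Real.pi) - 4 * C))) J (by
      intro w _
      have := hP2 w φ ((na w : ℝ) - 4 * nm w - 3) hφ
        (fun α β P hP hb => (hRT w α β P hP hb φ hpos).2.1 hseg)
      rw [hJ, hC]
      simp only
      nlinarith)
    rw [hadd, hmul, hadd, hmul, hc, hna, hnm] at hle
    nlinarith
  · intro h1
    refine lim_le (fun n => Ew ε n J) _ _ (4 * C) hl' ?_
    intro n
    obtain ⟨-, -, hc, hmono⟩ := hE1 ε h0 h3 n
    have hle := hmono J (fun _ => 2 * Real.pi * n + 4 * C) (by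
      intro w hw
      have h5 := hP2 w (-φ) (-(w.length : ℝ)) (test_neg hφ) (fun α β P hP hb => by
        have h6 := (hRT w α β P hP hb φ hpos).2.2 h1
        have h7 : (P.roots.map (-φ)).sum = -(P.roots.map φ).sum := by
          rw [← Multiset.sum_map_neg', Multiset.map_map]
          rfl
        rw [h7]
        linarith)
      rw [lap_neg] at h5
      have h8 : ∫ l, |(-Lap φ) l| = C := by
        rw [hC]
        congr 1
        funext l
        rw [Pi.neg_apply, abs_neg]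
      have h9 : ∫ l, Real.log (hs (wmat w l)) * (-Lap φ) l = - J w := by
        rw [hJ]
        simp only [Pi.neg_apply, mul_neg]
        rw [integral_neg]
      rw [h8, h9, hw] at h5
      linarith)
    rw [hc] at hle
    exact hle

end Pool.Agent.Q39.BM
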